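import Pool.Agent.Helper39.Uct.Goals4

/-!
# UNI, FCL: elements of value one act as units; images of fibres are closed
-/

open scoped ComplexOrder

namespace Pool.Agent.Helper90.Uct3

open Pool.Agent.Helper39.Uct Pool.Agent.Helper39.Uct.Fib Filter Topology

section pos

variable {B : Type} [NonUnitalCStarAlgebra B] (ψ : B →ₗ[ℂ] ℂ)
  (hp : ∀ b, 0 ≤ ψ (star b * b))

include hp

theorem pos_re (b : B) : 0 ≤ (ψ (star b * b)).re := (Complex.nonneg_iff.1 (hp b)).1

theorem pos_im (b : B) : (ψ (star b * b)).im = 0 := (Complex.nonneg_iff.1 (hp b)).2.symm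

theorem pos_conj (a b : B) : star (ψ (star b * a)) = ψ (star a * b) := by
  have h1 := pos_im ψ hp (a + b)
  have h2 := pos_im ψ hp (a + Complex.I • b)
  have e1 : star (a + b) * (a + b) = star a * a + star a * b + star b * a + star b * b := by
    rw [star_add]; noncomm_ring
  have e2 : star (a + Complex.I • b) * (a + Complex.I • b) =
      star a * a + Complex.I • (star a * b) + (-Complex.I) • (star b * a) + star b * b := by
    have e3 : star (Complex.I • b) = -(Complex.I • star b) := by
      rw [star_smul]; simp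
    have e4 : Complex.I • Complex.I • (star b * b) = -(star b * b) := by
      rw [smul_smul, Complex.I_mul_I, neg_one_smul]
    rw [star_add, e3]
    simp only [add_mul, mul_add, neg_mul, smul_mul_assoc, mul_smul_comm, neg_smul]
    rw [smul_add, smul_neg, e4, neg_neg]
    abel
  rw [e1] at h1
  rw [e2] at h2
  simp only [map_add, map_smul, Complex.add_im, smul_eq_mul, Complex.mul_im, Complex.I_re,
    Complex.I_im, Complex.neg_re, Complex.neg_im] at h1 h2
  have ha := pos_im ψ hp a
  have hb := pos_im ψ hp b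
  rw [ha, hb] at h1 h2
  apply Complex.ext
  · simp only [RCLike.star_def, Complex.conj_re]
    linarith
  · simp only [RCLike.star_def, Complex.conj_im]
    linarith

/-- The semi-inner product of a positive functional. -/
@[instance_reducible] noncomputable def posCore : PreInnerProductSpace.Core ℂ B where
  inner a b := ψ (star a * b)
  conj_inner_symm x y := by
    have := pos_conj ψ hp x y
    simpa using this
  re_inner_nonneg x := pos_re ψ hp x
  add_left x y z := by simp [add_mul]
  smul_left x y r := by simp [smul_mul_assoc]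

theorem pos_cs (a b : B) :
    ‖ψ (star a * b)‖ ^ 2 ≤ (ψ (star a * a)).re * (ψ (star b * b)).re := by
  have h := @InnerProductSpace.Core.inner_mul_inner_self_le ℂ B _ _ _ (posCore ψ hp) a b
  have h1 : ‖ψ (star b * a)‖ = ‖ψ (star a * b)‖ := by
    rw [← pos_conj ψ hp a b, norm_star]
  have h2 : ‖ψ (star a * b)‖ * ‖ψ (star b * a)‖ ≤
      (ψ (star a * a)).re * (ψ (star b * b)).re := h
  rw [h1] at h2
  nlinarith

end pos

theorem uni : S_UNI := by
  intro B _ ψ hb hp u hu hun hu1 x
  let _ : PartialOrder B := CStarAlgebra.spectralOrder B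
  have : StarOrderedRing B := CStarAlgebra.spectralOrderedRing B
  let l := CStarAlgebra.approximateUnit B
  have hl := CStarAlgebra.increasingApproximateUnit B
  have hne : l.NeBot := hl.neBot
  have hc : Continuous ψ := (LinearMap.mkContinuous ψ 1 (by simpa using hb)).continuous
  have n1 : ∀ᶠ v in l, 0 ≤ v := hl.eventually_nonneg
  have n2 : ∀ᶠ v in l, ‖v‖ ≤ 1 := hl.eventually_norm
  have hsq : ∀ᶠ v in l, star (v - u) = v - u ∧ (ψ (star (v - u) * (v - u))).re ≤
      1 - (ψ (v * u)).re - (ψ (u * v)).re + 1 := by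
    filter_upwards [n1, n2] with v hv1 hv2
    have hvs : star v = v := (IsSelfAdjoint.of_nonneg hv1).star_eq
    have hs : star (v - u) = v - u := by rw [star_sub, hvs, hu.star_eq]
    refine ⟨hs, ?_⟩
    have e : star (v - u) * (v - u) = v * v - v * u - u * v + u * u := by
      rw [hs]; noncomm_ring
    have h1 : (ψ (v * v)).re ≤ 1 := by
      calc (ψ (v * v)).re ≤ ‖ψ (v * v)‖ := Complex.re_le_norm _
        _ ≤ ‖v * v‖ := hb _
        _ ≤ ‖v‖ * ‖v‖ := norm_mul_le _ _
        _ ≤ 1 * 1 := by gcongr
        _ = 1 := one_mul 1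
    have h2 : (ψ (u * u)).re ≤ 1 := by
      calc (ψ (u * u)).re ≤ ‖ψ (u * u)‖ := Complex.re_le_norm _
        _ ≤ ‖u * u‖ := hb _
        _ ≤ ‖u‖ * ‖u‖ := norm_mul_le _ _
        _ ≤ 1 * 1 := by gcongr
        _ = 1 := one_mul 1
    rw [e]
    simp only [map_add, map_sub, Complex.add_re, Complex.sub_re]
    linarith
  have t1 : Tendsto (fun v => ψ (v * u)) l (𝓝 1) := by
    have := (hc.tendsto u).comp (hl.tendsto_mul_right u)
    rw [hu1] at this
    exact this
  have t2 : Tendsto (fun v => ψ (u * v)) l (𝓝 1) := by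
    have := (hc.tendsto u).comp (hl.tendsto_mul_left u)
    rw [hu1] at this
    exact this
  have t3 : Tendsto (fun v => 1 - (ψ (v * u)).re - (ψ (u * v)).re + 1) l (𝓝 0) := by
    have h1 := (Complex.continuous_re.tendsto _).comp t1
    have h2 := (Complex.continuous_re.tendsto _).comp t2
    have h3 := ((tendsto_const_nhds (x := (1 : ℝ))).sub h1 |>.sub h2).add_const 1
    simpa using h3
  have key : ∀ y : B, ∀ c : ℝ, 0 ≤ c → ∀ L : B → ℂ, ∀ z : ℂ, Tendsto L l (𝓝 z) →
      (∀ᶠ v in l, ‖L v‖ ^ 2 ≤ c * (ψ (star (v - u) * (v - u))).re) → z = 0 := by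
    intro y c hc0 L z hL hle
    have h1 : Tendsto (fun v => ‖L v‖ ^ 2) l (𝓝 (‖z‖ ^ 2)) := (hL.norm).pow 2
    have h2 : Tendsto (fun v => c * (1 - (ψ (v * u)).re - (ψ (u * v)).re + 1)) l (𝓝 (c * 0)) :=
      t3.const_mul c
    have h3 : ‖z‖ ^ 2 ≤ c * 0 := by
      refine le_of_tendsto_of_tendsto h1 h2 ?_
      filter_upwards [hle, hsq] with v hv1 hv2
      exact hv1.trans (mul_le_mul_of_nonneg_left hv2.2 hc0)
    have h4 : ‖z‖ ^ 2 = 0 := le_antisymm (by simpa using h3) (by positivity)
    exact norm_eq_zero.1 (pow_eq_zero_iff (two_ne_zero) |>.1 h4)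
  constructor
  · have t4 : Tendsto (fun v => ψ (x * (v - u))) l (𝓝 (ψ x - ψ (x * u))) := by
      have h1 := ((hc.tendsto x).comp (hl.tendsto_mul_left x)).sub_const (ψ (x * u))
      refine h1.congr (fun v => ?_)
      simp [mul_sub]
    have := key x (ψ (star (star x) * star x)).re (pos_re ψ hp _) _ _ t4 (by
      filter_upwards with v
      have := pos_cs ψ hp (star x) (v - u)
      rw [star_star] at this
      rw [star_star]
      exact this)
    exact (sub_eq_zero.1 this).symm
  · have t4 : Tendsto (fun v => ψ ((v - u) * x)) l (𝓝 (ψ x - ψ (u * x))) := by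
      have h1 := ((hc.tendsto x).comp (hl.tendsto_mul_right x)).sub_const (ψ (u * x))
      refine h1.congr (fun v => ?_)
      simp [sub_mul]
    have := key x (ψ (star x * x)).re (pos_re ψ hp _) _ _ t4 (by
      filter_upwards [hsq] with v hv
      have := pos_cs ψ hp (v - u) x
      rw [hv.1] at this ⊢
      rw [mul_comm]
      exact this)
    exact (sub_eq_zero.1 this).symm

/-! ## FCL -/

/-- The cut-off function. -/
noncomputable def kf (r : ℝ) (t : ℝ) : ℝ := -(max (t - r ^ 2) 0) / max t (r ^ 2)

theorem kf_cont {r : ℝ} (hr : 0 < r) : Continuous (kf r) := by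
  unfold kf
  refine Continuous.div (by fun_prop) (by fun_prop) (fun t => ?_)
  have : 0 < max t (r ^ 2) := lt_of_lt_of_le (by positivity) (le_max_right _ _)
  exact this.ne'

theorem kf_zero {r : ℝ} {t : ℝ} (ht : t ≤ r ^ 2) : kf r t = 0 := by
  unfold kf
  rw [max_eq_right (a := t - r ^ 2) (by linarith)]
  simp

theorem kf_bound {r : ℝ} (hr : 0 < r) {t : ℝ} (ht : 0 ≤ t) :
    |t + t * kf r t + t * kf r t + kf r t * (t * kf r t)| ≤ r ^ 2 := by
  have e : t + t * kf r t + t * kf r t + kf r t * (t * kf r t) = t * (1 + kf r t) ^ 2 := by ring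
  rw [e]
  have hr2 : 0 < r ^ 2 := by positivity
  rcases le_total t (r ^ 2) with h | h
  · rw [kf_zero h]
    rw [abs_of_nonneg (by simpa using ht)]
    simpa using h
  · have h0 : 0 < t := lt_of_lt_of_le hr2 h
    have e2 : 1 + kf r t = r ^ 2 / t := by
      unfold kf
      rw [max_eq_left (a := t - r ^ 2) (by linarith), max_eq_left h]
      field_simp
      ring
    rw [e2, abs_of_nonneg (by positivity)]
    have e3 : t * (r ^ 2 / t) ^ 2 = r ^ 2 * (r ^ 2 / t) := by
      field_simp
    rw [e3]
    have : r ^ 2 / t ≤ 1 := (div_le_one h0).2 h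
    nlinarith

theorem exists_lift {Q : Type} [Group Q] {B B' : Type} [NonUnitalCStarAlgebra B]
    [NonUnitalCStarAlgebra B'] (G : Fib Q B) (π : B →⋆ₙₐ[ℂ] B') (q : Q) (y : B)
    (hy : y ∈ G.fib q) : ∃ y' ∈ G.fib q, π y' = π y ∧ ‖y'‖ ≤ ‖π y‖ := by
  rcases eq_or_lt_of_le (norm_nonneg (π y)) with h0 | hr
  · refine ⟨0, (G.fib q).zero_mem, ?_, by simp⟩
    rw [map_zero]
    exact (norm_eq_zero.1 h0.symm).symm
  · set r := ‖π y‖ with hrdef
    let _ : PartialOrder B := CStarAlgebra.spectralOrder B
    have : StarOrderedRing B := CStarAlgebra.spectralOrderedRing B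
    set a := star y * y with ha
    have hasa : IsSelfAdjoint a := IsSelfAdjoint.star_mul_self y
    have ha0 : 0 ≤ a := star_mul_self_nonneg y
    have hamem : a ∈ G.fib 1 := smem G hy hy
    set κ := cfcₙ (kf r) a with hκ
    have hκmem : κ ∈ G.fib 1 := by
      have hcl : IsClosed ((unitAlg G : NonUnitalStarSubalgebra ℂ B) : Set B) := G.closed 1
      have : cfcₙ (kf r) a ∈ unitAlg G := cfcₙ_mem (kf r) (show a ∈ unitAlg G from hamem)
      exact this
    have hκsa : IsSelfAdjoint κ := IsSelfAdjoint.cfcₙ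
    have hk0 : kf r 0 = 0 := kf_zero (by positivity)
    have hkc := kf_cont hr
    refine ⟨y + y * κ, (G.fib q).add_mem hy (unit_r G hκmem hy), ?_, ?_⟩
    · rw [map_add, map_mul]
      have h1 : π κ = 0 := by
        have hcont : Continuous π := Helper43.Uct.cont_hom π
        rw [hκ, NonUnitalStarAlgHomClass.map_cfcₙ π (kf r) a hkc.continuousOn hk0 hcont hasa
          (hasa.map π)]
        have h2 : Set.EqOn (kf r) (fun _ => 0) (quasispectrum ℝ (π a)) := by
          intro t ht
          apply kf_zero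
          have h3 : ‖π a‖ = r ^ 2 := by
            rw [ha, map_mul, map_star, CStarRing.norm_star_mul_self, ← hrdef, sq]
          have h4 : ‖t‖ ≤ ‖π a‖ := by
            have := norm_apply_le_norm_cfcₙ (fun t : ℝ => t) (π a) ht (by fun_prop) rfl (hasa.map π)
            rwa [cfcₙ_id' ℝ (π a) (hasa.map π)] at this
          rw [h3] at h4
          exact (le_abs_self t).trans h4
        rw [cfcₙ_congr h2, cfcₙ_const_zero]
      rw [h1, mul_zero, add_zero]
    · have e1 : star (y + y * κ) * (y + y * κ) = a + a * κ + κ * a + κ * (a * κ) := by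
        rw [star_add, star_mul, hκsa.star_eq, ha]
        noncomm_ring
      have hid : cfcₙ (fun t : ℝ => t) a = a := cfcₙ_id' ℝ a hasa
      have e2 : a + a * κ + κ * a + κ * (a * κ) =
          cfcₙ (fun t : ℝ => t + t * kf r t + t * kf r t + kf r t * (t * kf r t)) a := by
        have f1 : cfcₙ (fun t : ℝ => t * kf r t) a = a * κ := by
          rw [cfcₙ_mul (fun t : ℝ => t) (kf r) a (by fun_prop) rfl hkc.continuousOn hk0, hid]
        have f2 : cfcₙ (fun t : ℝ => t * kf r t) a = κ * a := by
          have : (fun t : ℝ => t * kf r t) = fun t => kf r t * t := by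
            funext t; ring
          rw [this, cfcₙ_mul (kf r) (fun t : ℝ => t) a hkc.continuousOn hk0 (by fun_prop) rfl, hid]
        rw [cfcₙ_add (a := a) (f := fun t : ℝ => t + t * kf r t + t * kf r t)
          (g := fun t => kf r t * (t * kf r t)) (by fun_prop) (by simp) (by fun_prop) (by simp),
          cfcₙ_add (a := a) (f := fun t : ℝ => t + t * kf r t)
          (g := fun t => t * kf r t) (by fun_prop) (by simp) (by fun_prop) (by simp),
          cfcₙ_add (a := a) (f := fun t : ℝ => t)
          (g := fun t => t * kf r t) (by fun_prop) rfl (by fun_prop) (by simp),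
          cfcₙ_mul (kf r) (fun t : ℝ => t * kf r t) a hkc.continuousOn hk0 (by fun_prop) (by simp),
          hid, f1]
        congr 2
        exact f1.symm.trans f2 |>.symm ▸ rfl
      have e3 : ‖y + y * κ‖ ^ 2 ≤ r ^ 2 := by
        rw [sq, ← CStarRing.norm_star_mul_self, e1, e2]
        refine norm_cfcₙ_le (fun t ht => ?_)
        have ht0 : 0 ≤ t := quasispectrum_nonneg_of_nonneg a ha0 t ht
        exact kf_bound hr ht0
      exact (sq_le_sq₀ (norm_nonneg _) hr.le).1 e3

theorem fcl : S_FCL := by
  intro Q _ B B' _ _ G π q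
  have hcl : IsClosed (G.fib q : Set B) := G.closed q
  have : CompleteSpace (G.fib q) := hcl.completeSpace_coe
  let f : NormedAddGroupHom (G.fib q) B' :=
    { toFun := fun y => π y
      map_add' := fun x y => by simp
      bound' := ⟨1, fun x => by
        rw [one_mul]
        exact NonUnitalStarAlgHom.norm_apply_le π (x : B)⟩ }
  have h := controlled_closure_range_of_complete (f := f) (j := NormedAddGroupHom.incl f.range)
    (C := 1) (ε := 1) (fun x => NormedAddGroupHom.norm_incl x) one_pos one_pos (by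
      rintro ⟨_, y, rfl⟩
      obtain ⟨y', hy', h1, h2⟩ := exists_lift G π q y y.2
      refine ⟨⟨y', hy'⟩, h1, ?_⟩
      rw [one_mul]
      exact h2)
  rw [NormedAddGroupHom.incl_range] at h
  have hset : (π '' (G.fib q : Set B)) = (f.range : Set B') := by
    ext z
    constructor
    · rintro ⟨y, hy, rfl⟩
      exact ⟨⟨y, hy⟩, rfl⟩
    · rintro ⟨y, rfl⟩
      exact ⟨y, y.2, rfl⟩
  rw [hset]
  apply isClosed_of_closure_subset
  intro z hz
  obtain ⟨g, hg, -⟩ := h z hz
  exact ⟨g, hg⟩

end Pool.Agent.Helper90.Uct3
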